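import Pool.Agent.MP_c2a681_co.H72.Core

set_option autoImplicit false

namespace Pool.Agent.Results.MP_c2a681_co.NotRegular

/-- The morphism `a ↦ ab`, `b ↦ aa`; the letter `a` is `false` and `b` is `true`. -/
def mor : Bool → List Bool
  | false => [false, true]
  | true => [false, false]

/-- The `k`-th iterate of the morphism applied to the word `a`; it has length `2 ^ k`. -/
def iter (k : ℕ) : List Bool := (fun w : List Bool => w.flatMap mor)^[k] [false]

/-- The first `n` letters of the period-doubling word. -/
def initial (n : ℕ) : List Bool := (iter n).take n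

/-- Palindromic length: the least number of nonempty palindromes with product `w`. -/
noncomputable def PL (w : List Bool) : ℕ :=
  sInf {m | ∃ L : List (List Bool), L.length = m ∧ (∀ x ∈ L, x ≠ [] ∧ x.reverse = x) ∧
    L.flatten = w}

/-- The `k`-kernel of an integer sequence. -/
def kernel (k : ℕ) (r : ℕ → ℤ) : Set (ℕ → ℤ) :=
  {f | ∃ e c : ℕ, c < k ^ e ∧ f = fun n => r (k ^ e * n + c)}

/-- The sequence is `k`-regular. -/
def IsReg (k : ℕ) (r : ℕ → ℤ) : Prop := (Submodule.span ℤ (kernel k r)).FG

/-- The letters of the fixed point. -/
def letter (n : ℕ) : Bool := if h : n % 2 = 0 then false else !letter (n / 2)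
decreasing_by omega

theorem letter_rec (n : ℕ) : letter (2 * n) = false ∧ letter (2 * n + 1) = !letter n := by
  constructor
  · rw [letter, dif_pos (by omega)]
  · rw [letter, dif_neg (by omega), show (2 * n + 1) / 2 = n by omega]

theorem flat (n : ℕ) : ((List.range n).map letter).flatMap mor = (List.range (2 * n)).map letter := by
  induction n with
  | zero => rfl
  | succ n ih =>
    rw [List.range_succ, List.map_append, List.flatMap_append, ih, Nat.mul_succ,
      List.range_succ, List.range_succ, List.map_append, List.map_append, List.append_assoc]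
    congr 1
    simp only [List.map_cons, List.map_nil, List.flatMap_cons, List.flatMap_nil, List.append_nil,
      (letter_rec n).1, (letter_rec n).2]
    cases letter n <;> rfl

theorem iter_eq (k : ℕ) : iter k = (List.range (2 ^ k)).map letter := by
  induction k with
  | zero =>
    have := (letter_rec 0).1
    simp only [Nat.mul_zero] at this
    simp [iter, this]
  | succ k ih =>
    unfold iter at ih ⊢
    rw [Function.iterate_succ_apply', ih, flat, pow_succ']

theorem initial_eq (n : ℕ) : initial n = List.ofFn fun i : Fin n => letter i.val := by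
  have h : n ≤ 2 ^ n := Nat.lt_two_pow_self.le
  unfold initial
  rw [iter_eq]
  apply List.ext_getElem
  · simp [h]
  · intro i h1 h2
    simp

theorem PL_least (w : List Bool) : IsLeast {m | ∃ L : List (List Bool), L.length = m ∧
    (∀ x ∈ L, x.reverse = x) ∧ L.flatten = w} (PL w) := by
  constructor
  · have hne : {m | ∃ L : List (List Bool), L.length = m ∧ (∀ x ∈ L, x ≠ [] ∧ x.reverse = x) ∧
        L.flatten = w}.Nonempty := by
      refine ⟨_, w.map fun a => [a], rfl, ?_, ?_⟩
      · intro x hx
        obtain ⟨a, -, rfl⟩ := List.mem_map.1 hx
        simp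
      · induction w with
        | nil => rfl
        | cons a w ih => simpa using ih
    obtain ⟨L, h1, h2, h3⟩ := Nat.sInf_mem hne
    exact ⟨L, h1, fun x hx => (h2 x hx).2, h3⟩
  · rintro m ⟨L, rfl, h2, h3⟩
    refine le_trans (Nat.sInf_le ?_) (List.length_filter_le (fun x => x ≠ []) L)
    refine ⟨L.filter fun x => x ≠ [], rfl, fun x hx => ?_, ?_⟩
    · obtain ⟨a, b⟩ := List.mem_filter.1 hx
      exact ⟨by simpa using b, h2 x a⟩
    · rw [List.flatten_filter_ne_nil, h3]

/-- The palindromic length of the initial factors of the period-doubling word is not 2-regular. -/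
theorem result : ¬ IsReg 2 fun n => (PL (initial n) : ℤ) :=
  Pool.Agent.MP_c2a681_co.H72.core letter letter_rec (fun n => PL (initial n)) fun n => by
    rw [← initial_eq]
    exact PL_least _

end Pool.Agent.Results.MP_c2a681_co.NotRegular
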